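import Pool.Agent.T63.GT.Tame

/-!
# Erdős' girth conjecture: describing the adjacent pairs by unions of monotone or symmetric sets

The vertices of a graph have names, which are different strings of `m` bits. A set of strings is
tame with `c` classes (`Pool.Agent.H96.Tame.Tame`) if, for suitable preferred values of the bits and
a suitable partition of the positions into free positions and `c` classes, it is closed under giving
a free position its preferred value, and under changing two positions of one class of which exactly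
one has its preferred value. Examples: linear threshold functions with any weights and all unate functions
(`c = 0`), and sets which only depend on the numbers of deviations from some string in `c` blocks of
positions (Hamming balls and spheres, parities).

For the graphs which the girth conjecture asks for (`n` vertices, at least `c₀ n ^ (1 + 1 / k)` edges, girth
greater than `2 k`, `2 ^ m ≤ D n`), if the set of the pairs of the names of adjacent vertices, written as
strings of `2 m` bits, is the union of tame sets with `c_1, c_2, ...` classes (which may contain positions of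
both names), then the sum of the `2 ^ c_j` is at least `(c₀ / D) n ^ (1 / k)`, for ALL `n`. So such a graph has
no description of its edges by `n ^ (1 / k - ε)` monotone or symmetric sets with `o(log n)` classes.

It follows from a bound for all graphs of girth greater than four: the number of the edges is at most `2 ^ m`
times the sum of the `2 ^ c_j` (`pairs`).
-/

set_option autoImplicit false

namespace Pool.Agent.Results.MP_97687e_co.AdjacentPairs

open Finset Pool.Agent.H96.Tame Pool.Agent.T63.GT

open Classical in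
lemma pairs (m : ℕ) (V : Type) [Fintype V] (lab : V → Fin m → Bool) (G : SimpleGraph V)
    (hlab : Function.Injective lab) (hg : 4 < G.egirth) (L : ℕ) (c : Fin L → ℕ)
    (T : Fin L → Set (Fin (m + m) → Bool)) (hT : ∀ j, Tame (c j) (T j))
    (hU : {z | ∃ x y, G.Adj x y ∧ z = Fin.append (lab x) (lab y)} = ⋃ j, T j) :
    Nat.card G.edgeSet ≤ 2 ^ m * ∑ j, 2 ^ c j := by
  have hTG : ∀ j, ∀ z ∈ T j, ∃ x y, G.Adj x y ∧ z = Fin.append (lab x) (lab y) := by
    intro j z hz
    have : z ∈ ⋃ j, T j := Set.mem_iUnion.2 ⟨j, hz⟩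
    rw [← hU] at this
    exact this
  have h1 : ∀ j, (univ.filter (fun z => z ∈ T j)).card ≤ 2 * 2 ^ c j * 2 ^ m := fun j =>
    tame_pairs lab G hlab hg (hT j) (hTG j)
  have hdeg := G.sum_degrees_eq_twice_card_edges
  have h2 : (Nat.card G.edgeSet) = #G.edgeFinset := by
    rw [Nat.card_eq_fintype_card, SimpleGraph.edgeFinset_card]
  have h3 : ∑ x, G.degree x = (univ.filter (fun z : Fin (m + m) → Bool =>
      ∃ x y, G.Adj x y ∧ z = Fin.append (lab x) (lab y))).card := by
    have h4 : ∑ x, G.degree x = (univ.filter (fun p : V × V => G.Adj p.1 p.2)).card := by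
      rw [Finset.card_filter, Fintype.sum_prod_type]
      refine Finset.sum_congr rfl fun x _ => ?_
      rw [← G.card_neighborFinset_eq_degree, ← Finset.card_filter]
      congr 1
      ext y
      simp
    rw [h4]
    refine Finset.card_bij (fun p _ => Fin.append (lab p.1) (lab p.2)) ?_ ?_ ?_
    · intro p hp
      exact Finset.mem_filter.2 ⟨Finset.mem_univ _, p.1, p.2, (Finset.mem_filter.1 hp).2, rfl⟩
    · intro p _ q _ h
      refine Prod.ext (hlab ?_) (hlab ?_)
      · funext i
        have h5 := congrFun h (Fin.castAdd m i)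
        rwa [Fin.append_left, Fin.append_left] at h5
      · funext i
        have h5 := congrFun h (Fin.natAdd m i)
        rwa [Fin.append_right, Fin.append_right] at h5
    · intro z hz
      obtain ⟨x, y, hxy, rfl⟩ := (Finset.mem_filter.1 hz).2
      exact ⟨(x, y), Finset.mem_filter.2 ⟨Finset.mem_univ _, hxy⟩, rfl⟩
  have h5 : (univ.filter (fun z : Fin (m + m) → Bool =>
      ∃ x y, G.Adj x y ∧ z = Fin.append (lab x) (lab y))).card ≤ ∑ j, 2 * 2 ^ c j * 2 ^ m := by
    refine le_trans (Finset.card_le_card (t := univ.biUnion fun j =>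
      univ.filter (fun z => z ∈ T j)) ?_) (Finset.card_biUnion_le.trans
        (Finset.sum_le_sum fun j _ => h1 j))
    intro z hz
    have hz' : z ∈ {z | ∃ x y, G.Adj x y ∧ z = Fin.append (lab x) (lab y)} :=
      (Finset.mem_filter.1 hz).2
    rw [hU] at hz'
    obtain ⟨j, hj⟩ := Set.mem_iUnion.1 hz'
    exact Finset.mem_biUnion.2 ⟨j, Finset.mem_univ _, Finset.mem_filter.2 ⟨Finset.mem_univ _, hj⟩⟩
  have h6 : ∑ j, 2 * 2 ^ c j * 2 ^ m = 2 * (2 ^ m * ∑ j, 2 ^ c j) := by
    rw [Finset.mul_sum, Finset.mul_sum]
    refine Finset.sum_congr rfl fun j _ => ?_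
    ring
  rw [h6, ← h3, hdeg, ← h2] at h5
  omega


/-- **The edges are not the union of few monotone or symmetric sets.** Let `k ≥ 2`, let the vertices of a graph
with `n` vertices, girth greater than `2 k` and at least `c₀ n ^ (1 + 1 / k)` edges have distinct
names of `m` bits, `2 ^ m ≤ D n`. If the set of the strings of `2 m` bits which consist of the names of two
adjacent vertices is the union of sets `T j`, tame with `c j` classes, then the sum of the `2 ^ c j` is at
least `(c₀ / D) n ^ (1 / k)`. -/
theorem result (k D n m : ℕ) (c₀ : ℝ) (hk : 2 ≤ k) (lab : Fin n → Fin m → Bool)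
    (G : SimpleGraph (Fin n)) (hlab : Function.Injective lab) (hD : 2 ^ m ≤ D * n)
    (hg : ((2 * k : ℕ) : ℕ∞) < G.egirth)
    (hE : c₀ * (n : ℝ) ^ (1 + 1 / (k : ℝ)) ≤ Nat.card G.edgeSet)
    (L : ℕ) (c : Fin L → ℕ) (T : Fin L → Set (Fin (m + m) → Bool))
    (hT : ∀ j, Tame (c j) (T j))
    (hU : {z | ∃ x y, G.Adj x y ∧ z = Fin.append (lab x) (lab y)} = ⋃ j, T j) :
    c₀ / D * (n : ℝ) ^ (1 / (k : ℝ)) ≤ ∑ j, (2 : ℝ) ^ c j := by
  have hg4 : 4 < G.egirth := by
    refine lt_of_le_of_lt ?_ hg
    have : 4 ≤ 2 * k := by omega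
    exact_mod_cast this
  have hpos : 0 < D * n := lt_of_lt_of_le (by positivity) hD
  have hn1 : 1 ≤ n := Nat.pos_of_mul_pos_left hpos
  have hD1 : 1 ≤ D := Nat.pos_of_mul_pos_right hpos
  have hn0 : (0 : ℝ) < n := by exact_mod_cast hn1
  have hD0 : (0 : ℝ) < D := by exact_mod_cast hD1
  have h1 := pairs m (Fin n) lab G hlab hg4 L c T hT hU
  have h2 : (Nat.card G.edgeSet : ℝ) ≤ 2 ^ m * ∑ j, (2 : ℝ) ^ c j := by exact_mod_cast h1
  have h3 : ((2 : ℝ) ^ m) ≤ D * n := by exact_mod_cast hD
  have h4 : (0 : ℝ) ≤ ∑ j, (2 : ℝ) ^ c j := Finset.sum_nonneg fun j _ => by positivity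
  have h5 : c₀ * (n : ℝ) ^ (1 + 1 / (k : ℝ)) ≤ D * n * ∑ j, (2 : ℝ) ^ c j :=
    hE.trans (h2.trans (mul_le_mul_of_nonneg_right h3 h4))
  rw [Real.rpow_add hn0, Real.rpow_one] at h5
  rw [div_mul_eq_mul_div, div_le_iff₀ hD0]
  have h6 : n * (c₀ * (n : ℝ) ^ (1 / (k : ℝ))) ≤ n * ((∑ j, (2 : ℝ) ^ c j) * D) := by
    calc n * (c₀ * (n : ℝ) ^ (1 / (k : ℝ))) = c₀ * (n * (n : ℝ) ^ (1 / (k : ℝ))) := by ring
      _ ≤ _ := h5
      _ = _ := by ring
  exact le_of_mul_le_mul_left h6 hn0

end Pool.Agent.Results.MP_97687e_co.AdjacentPairs
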