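import Pool.Agent.Helper54.Clo.Asym

/-!
# Erdős' girth conjecture: neighbourhoods closed under a Boolean operation

The vertices of a graph have names, which are different strings of `m` bits. Let `f` be a Boolean
operation of any arity, applied coordinatewise to strings. If `f` is not the sum (modulo two) of an
odd number of its arguments, then a graph of girth greater than four with `c n ^ (1 + α)` edges, all
neighbourhoods of which are unions of at most `L` sets closed under `f`, needs `L ≥ n ^ (α - η)`,
for names of `O(log n)` bits; so this holds for the graphs which the girth conjecture asks for, with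
`α = 1 / k`. If `f` is the sum of an odd number of its arguments, then already single closed sets are
sufficient for the graphs of the girth conjecture with the parameters two and three.

Proof of the first part. If `f` is idempotent and no odd sum, then it gives the conjunction, the
disjunction or the majority. A family of sets closed under one of these which shatters `T` contains
two sets at distance at most `m / |T|`: there is a chain in the family along which one element of `T`
is added at a time and which does not turn back. By the Sauer-Shelah lemma every closed family with
`2 ^ (ε m)` members has two members at bounded distance; as the restrictions to subcubes are closed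
too, it has many such pairs. Without cycles of length four every pair is in one neighbourhood only,
and there are only `n m ^ O(1)` pairs at bounded distance.
-/

set_option autoImplicit false

namespace Pool.Agent.Results.MP_97687e_co.ClosureDichotomy

open Pool.Agent.Helper54.Clo

/-- **Neighbourhoods closed under a Boolean operation.** (1) For an operation `f` which is not the
sum of an odd number of its arguments, graphs with `c n ^ (1 + α)` edges and girth greater than four
whose neighbourhoods are unions of `L` sets closed under `f` have `L ≥ n ^ (α - η)`, if the names have
at most `C log₂ n` bits and `n` is large. (2) For an operation which is the sum of an odd number of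
its arguments single closed sets are sufficient for `(n / 2) ^ (3 / 2)` edges and girth greater than
four, and for `(n / 2) ^ (4 / 3)` edges and girth greater than six; the vertices are here all strings
of `2 s + 1` or `3 s + 1` bits. -/
theorem result :
    (∀ C α η c : ℝ, 0 < η → 0 < c → ∃ n₀ : ℕ,
      ∀ (k : ℕ) (f : (Fin k → Bool) → Bool), ¬ OddSum f →
      ∀ (n m L : ℕ) (lab : Fin n → Fin m → Bool) (G : SimpleGraph (Fin n)), n₀ ≤ n →
        Function.Injective lab → (m : ℝ) ≤ C * Real.logb 2 n →
        (∀ x, UnionOfClosed f L (lab '' G.neighborSet x)) → 4 < G.egirth →
        c * (n : ℝ) ^ (1 + α) ≤ Nat.card G.edgeSet → (n : ℝ) ^ (α - η) ≤ L) ∧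
    (∀ (k : ℕ) (f : (Fin k → Bool) → Bool), OddSum f → ∀ s : ℕ, s ≠ 0 →
      (∃ G : SimpleGraph (Fin (2 * s + 1) → Bool), 4 < G.egirth ∧
        Nat.card G.edgeSet = 8 ^ s ∧ ∀ x, Closed f (G.neighborSet x)) ∧
      ∃ G : SimpleGraph (Fin (3 * s + 1) → Bool), 6 < G.egirth ∧
        Nat.card G.edgeSet = 16 ^ s ∧ ∀ x, Closed f (G.neighborSet x)) := by
  refine ⟨fun C α η c hη hc => asym C α η c hη hc, fun k f hf s hs => ⟨?_, ?_⟩⟩
  · obtain ⟨G, h1, h2, h3⟩ := plane_graph s hs
    exact ⟨G, h1, h2, fun x => aff_closed hf (h3 x)⟩
  · obtain ⟨G, h1, h2, h3⟩ := quadrangle_graph s hs
    exact ⟨G, h1, h2, fun x => aff_closed hf (h3 x)⟩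

end Pool.Agent.Results.MP_97687e_co.ClosureDichotomy
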