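import Pool.Agent.T63.GT.Tame

/-!
# Erdős' girth conjecture: unions of monotone or symmetric sets are not better than lists

The vertices of a graph have names, which are different strings of `m` bits. A set of strings is
tame with `c` classes (`Pool.Agent.H96.Tame.Tame`) if, for suitable preferred values of the bits and
a suitable partition of the positions into free positions and `c` classes, it is closed under giving
a free position its preferred value, and under changing two positions of one class of which exactly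
one has its preferred value. Examples: linear threshold functions with any weights and all unate functions
(`c = 0`), and sets which only depend on the numbers of deviations from some string in `c` blocks of
positions (Hamming balls and spheres, parities). All single strings are tame with `c = 0`.

Let the weight of a union of tame sets with `c_1, c_2, ...` classes be the sum of the `2 ^ c_j`; so the list of
the neighbours of a vertex `x` is such a union of weight `deg x`, and the lists of neighbours of all vertices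
have the total weight `2 e`. For the graphs which the girth conjecture asks for (`n` vertices, at least
`c₀ n ^ (1 + 1 / k)` edges, girth greater than `2 k`, `2 ^ m ≤ D n`), every representation of all the
neighbourhoods by unions of tame sets has at least `(1 - η)` times this weight, for large `n`.

It follows from a bound for all graphs of girth greater than four: `2 e` is at most the sum of the weights
plus `2 (m + 1) ^ 2 2 ^ m` (`neighbourhoods` in `Pool/Agent/T63/GT/Tame.lean`).
-/

set_option autoImplicit false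

namespace Pool.Agent.Results.MP_97687e_co.ListingNeighbours

open Finset Pool.Agent.H96.Tame Pool.Agent.T63.GT

lemma small_error (D : ℕ) (c₀ η α : ℝ) (hc : 0 < c₀) (hη : 0 < η) (hα : 0 < α) :
    ∃ n₀ : ℕ, ∀ n m : ℕ, n₀ ≤ n → 2 ^ m ≤ D * n →
      2 * ((m : ℝ) + 1) ^ 2 * 2 ^ m ≤ η * (2 * (c₀ * (n : ℝ) ^ (1 + α))) := by
  obtain ⟨K, hK, hKm⟩ := Pool.Agent.H96.Ppz.pow_small 2 (half_pos hα)
  have ht := (tendsto_rpow_atTop (half_pos hα)).comp (tendsto_natCast_atTop_atTop (R := ℝ))
  obtain ⟨n₀, hn₀⟩ := Filter.eventually_atTop.1 (ht.eventually_ge_atTop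
    (K * (D : ℝ) ^ (1 + α / 2) / (η * c₀)))
  refine ⟨n₀, fun n m hn hD => ?_⟩
  have hpos : 0 < D * n := lt_of_lt_of_le (by positivity) hD
  have hn1 : 1 ≤ n := Nat.pos_of_mul_pos_left hpos
  have hn0 : (0 : ℝ) < n := by exact_mod_cast hn1
  have hDn : ((2 : ℝ) ^ m) ≤ D * n := by exact_mod_cast hD
  have h1 := hn₀ n hn
  simp only [Function.comp] at h1
  rw [div_le_iff₀ (by positivity)] at h1
  have h2 : ((2 : ℝ) ^ m) ^ (α / 2) * 2 ^ m = ((2 : ℝ) ^ m) ^ (1 + α / 2) := by
    rw [Real.rpow_add (by positivity), Real.rpow_one]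
    ring
  calc 2 * ((m : ℝ) + 1) ^ 2 * 2 ^ m ≤ 2 * (K * ((2 : ℝ) ^ m) ^ (α / 2)) * 2 ^ m := by
        gcongr
        exact hKm m
    _ = 2 * K * ((2 : ℝ) ^ m) ^ (1 + α / 2) := by rw [← h2]; ring
    _ ≤ 2 * K * ((D : ℝ) * n) ^ (1 + α / 2) := by
        gcongr
    _ = 2 * (K * (D : ℝ) ^ (1 + α / 2)) * (n : ℝ) ^ (1 + α / 2) := by
        rw [Real.mul_rpow (by positivity) (by positivity)]
        ring
    _ ≤ 2 * ((n : ℝ) ^ (α / 2) * (η * c₀)) * (n : ℝ) ^ (1 + α / 2) := by
        gcongr
    _ = η * (2 * (c₀ * ((n : ℝ) ^ (α / 2) * (n : ℝ) ^ (1 + α / 2)))) := by ring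
    _ = η * (2 * (c₀ * (n : ℝ) ^ (1 + α))) := by
        rw [← Real.rpow_add hn0]
        congr 4
        ring

open Classical in
/-- **Listing the neighbours is optimal among unions of monotone or symmetric sets.** For all `k ≥ 2`, `D`,
`c₀, η > 0` and all large `n`: let the vertices of a graph with `n` vertices, girth greater than `2 k` and
at least `c₀ n ^ (1 + 1 / k)` edges have distinct names of `m` bits, `2 ^ m ≤ D n`. If the set of the names of
the neighbours of each vertex `x` is the union of sets `T x j`, tame with `c x j` classes, then the sum of all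
the `2 ^ c x j` is at least `(1 - η)` times twice the number of the edges. -/
theorem result (k D : ℕ) (c₀ η : ℝ) (hk : 2 ≤ k) (hc : 0 < c₀) (hη : 0 < η) :
    ∃ n₀ : ℕ, ∀ (n m : ℕ) (lab : Fin n → Fin m → Bool) (G : SimpleGraph (Fin n)), n₀ ≤ n →
      Function.Injective lab → 2 ^ m ≤ D * n → ((2 * k : ℕ) : ℕ∞) < G.egirth →
      c₀ * (n : ℝ) ^ (1 + 1 / (k : ℝ)) ≤ Nat.card G.edgeSet →
      ∀ (N : Fin n → ℕ) (c : ∀ x, Fin (N x) → ℕ) (T : ∀ x, Fin (N x) → Set (Fin m → Bool)),
        (∀ x j, Tame (c x j) (T x j)) → (∀ x, lab '' G.neighborSet x = ⋃ j, T x j) →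
        (1 - η) * (2 * (Nat.card G.edgeSet : ℝ)) ≤ ∑ x, ∑ j, (2 : ℝ) ^ c x j := by
  have hk0 : (0 : ℝ) < k := by exact_mod_cast (by omega : 0 < k)
  obtain ⟨n₀, hn₀⟩ := small_error D c₀ η (1 / (k : ℝ)) hc hη (by positivity)
  refine ⟨n₀, fun n m lab G hn hlab hD hg hE N c T hT hN => ?_⟩
  have hg4 : 4 < G.egirth := by
    refine lt_of_le_of_lt ?_ hg
    have : 4 ≤ 2 * k := by omega
    exact_mod_cast this
  have h1 := neighbourhoods m (Fin n) lab G hlab hg4 N c T hT hN
  have h2 := hn₀ n m hn hD
  have h3 : 2 * (Nat.card G.edgeSet : ℝ) ≤ (∑ x, ∑ j, (2 : ℝ) ^ c x j) +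
      2 * ((m : ℝ) + 1) ^ 2 * 2 ^ m := by exact_mod_cast h1
  nlinarith

end Pool.Agent.Results.MP_97687e_co.ListingNeighbours
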