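import Pool.Agent.N598.BT.Two
import Pool.Agent.H96.TameAsy
import Pool.Agent.H607R2.BW.GIR

/-!
# Erdős' girth conjecture: graphs given by tree tensor networks

The vertices of a graph have names, which are different strings of `m` symbols of an alphabet `α`
with `q` elements (for instance strings of bits, or vectors over a finite field), in any labelling.
Suppose that the set of the pairs (name of `x`, name of `y`), `x` and `y` adjacent, is the union of
the supports of `L` functions of the `2 m` symbols of two strings, each of which is computed by a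
read-once tree tensor network of bond dimension at most `w` over some field: the leaves of a binary
tree read one symbol each, and vectors of dimension `w` are combined at the inner nodes by bilinear
maps. The trees, the arrangement of the `2 m` symbols at the leaves and the fields are arbitrary, and
there may be cancellations (`Piece` in `Pool/Agent/N598/BT/Defs.lean`, `UnionOf` in
`Pool/Agent/N598/BT/Two.lean`). Nondeterministic read-once decision diagrams of width `w`, for any
order of the `2 m` symbols, are a very special case.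

The graphs which the girth conjecture asks for do not have such descriptions by few small networks: for
`k ≥ 2` and `β < 1 / k` there is `δ > 0` such that for all `c₀ > 0` and `D` and all large `n`, every graph
with `n` vertices, at least `c₀ n ^ (1 + 1 / k)` edges and girth greater than `2 k` needs `L > n ^ β`
networks or bond dimension `w > n ^ δ`, if `q ^ m ≤ D n` and `q ≤ n ^ δ`. It follows from a bound for all
graphs of girth greater than four (`bound`): for every `η > 0` there are `δ > 0` and `C` such that if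
`w ≤ (q ^ m) ^ δ` then `2 e ≤ C L q ^ 4 (q ^ m) ^ (1 + η)`.

Proof. The large relations given by small networks contain product sets of two by two strings
(`Pool.Agent.N598.BT.asymptotic_rel`, from the starting files).
-/

set_option autoImplicit false

namespace Pool.Agent.Results.MP_97687e_co.TensorNetworks

open Finset Pool.Agent.N598.BT

/-- the set of the pairs of names of adjacent vertices -/
def Pairs {V α : Type} {m : ℕ} (lab : V → Fin m → α) (G : SimpleGraph V) :
    Set (Fin 2 → Fin m → α) :=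
  {z | ∃ x y, G.Adj x y ∧ z = ![lab x, lab y]}

open Classical in
lemma card_pairs {V α : Type} [Fintype V] {m : ℕ} (lab : V → Fin m → α)
    (hlab : Function.Injective lab) (G : SimpleGraph V) :
    (Pairs lab G).ncard = 2 * Nat.card G.edgeSet := by
  have h2 : (Nat.card G.edgeSet) = #G.edgeFinset := by
    rw [Nat.card_eq_fintype_card, SimpleGraph.edgeFinset_card]
  rw [h2, ← G.sum_degrees_eq_twice_card_edges]
  have h4 : ∑ x, G.degree x = (univ.filter (fun p : V × V => G.Adj p.1 p.2)).card := by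
    rw [Finset.card_filter, Fintype.sum_prod_type]
    refine Finset.sum_congr rfl fun x _ => ?_
    rw [← G.card_neighborFinset_eq_degree, ← Finset.card_filter]
    congr 1
    ext y
    simp
  have h5 : Pairs lab G = (fun p : V × V => (![lab p.1, lab p.2] : Fin 2 → Fin m → α)) ''
      (univ.filter (fun p : V × V => G.Adj p.1 p.2) : Finset (V × V)) := by
    ext z
    simp only [Pairs, Set.mem_ofPred_eq, Set.mem_image, Finset.coe_filter, Finset.mem_univ,
      true_and]
    constructor
    · rintro ⟨x, y, hxy, rfl⟩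
      exact ⟨(x, y), hxy, rfl⟩
    · rintro ⟨p, hp, rfl⟩
      exact ⟨p.1, p.2, hp, rfl⟩
  rw [h5, Set.ncard_image_of_injective _ ?_, Set.ncard_coe_finset, h4]
  intro p p' h
  have e0 := congrFun h 0
  have e1 := congrFun h 1
  exact Prod.ext (hlab e0) (hlab e1)

lemma bound (η : ℝ) (hη : 0 < η) : ∃ δ : ℝ, 0 < δ ∧ ∃ C : ℝ, 0 ≤ C ∧
    ∀ (α V : Type) [Fintype α] [Nonempty α] [Fintype V] (m L w : ℕ) (lab : V → Fin m → α)
      (G : SimpleGraph V), Function.Injective lab → 4 < G.egirth → UnionOf L w (Pairs lab G) →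
      (w : ℝ) ≤ ((Fintype.card α : ℝ) ^ m) ^ δ →
      2 * (Nat.card G.edgeSet : ℝ) ≤
        C * L * (Fintype.card α : ℝ) ^ 4 * ((Fintype.card α : ℝ) ^ m) ^ (1 + η) := by
  obtain ⟨δ, hδ, C, hC, h⟩ := asymptotic_rel (0 : Fin 2) η hη
  refine ⟨δ, hδ, C, hC, fun α V _ _ _ m L w lab G hlab hg hU hw => ?_⟩
  by_contra hcon
  rw [not_le] at hcon
  have hcard : ((Pairs lab G).ncard : ℝ) = 2 * (Nat.card G.edgeSet : ℝ) := by
    rw [card_pairs lab hlab G]
    push_cast
    ring
  rw [← hcard] at hcon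
  obtain ⟨X, Y, hX, hY, hXY⟩ := h α m L w (Pairs lab G) hU hw hcon
  have hfree : (completeBipartiteGraph (Fin 2) (Fin 2)).Free G :=
    Pool.Agent.H607R2.BW.t_GIR V G hg
  have key : ∀ s s', ∃ x y, G.Adj x y ∧ X s = lab x ∧ Y s' = lab y := by
    intro s s'
    obtain ⟨x, y, hxy, he⟩ := hXY s s'
    exact ⟨x, y, hxy, congrFun he 0, congrFun he 1⟩
  obtain ⟨x0, y0, a00, b00, c00⟩ := key 0 0
  obtain ⟨x0', y1, a01, b01, c01⟩ := key 0 1
  obtain ⟨x1, y0', a10, b10, c10⟩ := key 1 0
  obtain ⟨x1', y1', a11, b11, c11⟩ := key 1 1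
  have e1 : x0 = x0' := hlab (b00.symm.trans b01)
  have e2 : x1 = x1' := hlab (b10.symm.trans b11)
  have e3 : y0 = y0' := hlab (c00.symm.trans c10)
  have e4 : y1 = y1' := hlab (c01.symm.trans c11)
  subst e1 e2 e3 e4
  have nx : x0 ≠ x1 := fun h' => by
    have : X 0 = X 1 := by rw [b00, b10, h']
    exact absurd (hX this) (by decide)
  have ny : y0 ≠ y1 := fun h' => by
    have : Y 0 = Y 1 := by rw [c00, c01, h']
    exact absurd (hY this) (by decide)
  classical
  refine Pool.Agent.H96.Ppz.not_free G {x0, x1} {y0, y1} (Finset.card_pair nx)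
    (Finset.card_pair ny) ?_ hfree
  intro u hu v hv
  rw [Finset.mem_insert, Finset.mem_singleton] at hu hv
  rcases hu with rfl | rfl <;> rcases hv with rfl | rfl
  · exact a00
  · exact a01
  · exact a10
  · exact a11

/-- **The graphs of the girth conjecture are not given by few small tree tensor networks.** For every
`k ≥ 2` and `β < 1 / k` there is `δ > 0` such that for all `D` and `c₀ > 0` and all large `n`: let the
vertices of a graph `G` with `n` vertices, girth greater than `2 k` and at least `c₀ n ^ (1 + 1 / k)` edges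
have distinct names `lab x` in `α ^ m`, where `α` has at most `n ^ δ` elements and `α ^ m` at most `D n`. If
the set of the pairs of names of adjacent vertices is the union of the supports of `L ≤ n ^ β` functions
computed by read-once tree tensor networks of bond dimension at most `w` over some fields, then
`w > n ^ δ`. -/
theorem result (k : ℕ) (β : ℝ) (hk : 2 ≤ k) (hβ : β < 1 / k) :
    ∃ δ : ℝ, 0 < δ ∧ ∀ (D : ℕ) (c₀ : ℝ), 0 < c₀ →
      ∃ n₀ : ℕ, ∀ (α : Type) [Fintype α] [Nonempty α] (n m L w : ℕ) (lab : Fin n → Fin m → α)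
        (G : SimpleGraph (Fin n)), n₀ ≤ n → Function.Injective lab →
        Fintype.card α ^ m ≤ D * n → (Fintype.card α : ℝ) ≤ (n : ℝ) ^ δ →
        ((2 * k : ℕ) : ℕ∞) < G.egirth →
        c₀ * (n : ℝ) ^ (1 + 1 / (k : ℝ)) ≤ Nat.card G.edgeSet →
        UnionOf L w (Pairs lab G) → (L : ℝ) ≤ (n : ℝ) ^ β → (n : ℝ) ^ δ < w := by
  have hk0 : (0 : ℝ) < k := by exact_mod_cast (by omega : 0 < k)
  obtain ⟨η, hη⟩ : ∃ η : ℝ, η = (1 / (k : ℝ) - β) / 3 := ⟨_, rfl⟩
  have hη0 : 0 < η := by rw [hη]; linarith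
  obtain ⟨δ', hδ', C, hC, h⟩ := bound η hη0
  refine ⟨min δ' (η / 4), lt_min hδ' (by linarith), fun D c₀ hc => ?_⟩
  have ht := (tendsto_rpow_atTop hη0).comp (tendsto_natCast_atTop_atTop (R := ℝ))
  obtain ⟨n₀, hn₀⟩ := Filter.eventually_atTop.1 (ht.eventually_gt_atTop
    (C * (D : ℝ) ^ (1 + η) / (2 * c₀)))
  refine ⟨max n₀ 1, ?_⟩
  intro α _ _ n m L w lab G hn hlab hD hq hg hE hU hL
  have hn1 : 1 ≤ n := le_trans (le_max_right _ _) hn
  have hn0 : (0 : ℝ) < n := by exact_mod_cast hn1
  have hn1' : (1 : ℝ) ≤ n := by exact_mod_cast hn1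
  by_contra hw
  rw [not_lt] at hw
  have hg4 : 4 < G.egirth := by
    refine lt_of_le_of_lt ?_ hg
    have : 4 ≤ 2 * k := by omega
    exact_mod_cast this
  have hcard : n ≤ Fintype.card α ^ m := by
    have h1 := Fintype.card_le_of_injective lab hlab
    rwa [Fintype.card_fin, Fintype.card_fun, Fintype.card_fin] at h1
  have hcardr : (n : ℝ) ≤ (Fintype.card α : ℝ) ^ m := by exact_mod_cast hcard
  have hw' : (w : ℝ) ≤ ((Fintype.card α : ℝ) ^ m) ^ δ' := by
    calc (w : ℝ) ≤ (n : ℝ) ^ (min δ' (η / 4)) := hw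
      _ ≤ (n : ℝ) ^ δ' := Real.rpow_le_rpow_of_exponent_le hn1' (min_le_left _ _)
      _ ≤ ((Fintype.card α : ℝ) ^ m) ^ δ' := Real.rpow_le_rpow hn0.le hcardr hδ'.le
  have h1 := h α (Fin n) m L w lab G hlab hg4 hU hw'
  have h2 : (Fintype.card α : ℝ) ^ 4 ≤ (n : ℝ) ^ η := by
    calc (Fintype.card α : ℝ) ^ 4 ≤ ((n : ℝ) ^ (min δ' (η / 4))) ^ 4 :=
          pow_le_pow_left₀ (Nat.cast_nonneg _) hq 4
      _ ≤ ((n : ℝ) ^ (η / 4)) ^ 4 := by
          refine pow_le_pow_left₀ (by positivity) ?_ 4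
          exact Real.rpow_le_rpow_of_exponent_le hn1' (min_le_right _ _)
      _ = (n : ℝ) ^ η := by
          rw [← Real.rpow_natCast, ← Real.rpow_mul hn0.le]
          congr 1
          push_cast
          ring
  have h3 : ((Fintype.card α : ℝ) ^ m) ^ (1 + η) ≤ (D : ℝ) ^ (1 + η) * (n : ℝ) ^ (1 + η) := by
    rw [← Real.mul_rpow (by positivity) (by positivity)]
    refine Real.rpow_le_rpow (by positivity) ?_ (by positivity)
    exact_mod_cast hD
  have h4 : 2 * (c₀ * (n : ℝ) ^ (1 + 1 / (k : ℝ))) ≤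
      C * (n : ℝ) ^ β * (n : ℝ) ^ η * ((D : ℝ) ^ (1 + η) * (n : ℝ) ^ (1 + η)) := by
    calc 2 * (c₀ * (n : ℝ) ^ (1 + 1 / (k : ℝ))) ≤ 2 * (Nat.card G.edgeSet : ℝ) := by linarith
      _ ≤ _ := h1
      _ ≤ _ := by gcongr
  have h5 : (n : ℝ) ^ β * (n : ℝ) ^ η * (n : ℝ) ^ (1 + η) * (n : ℝ) ^ η =
      (n : ℝ) ^ (1 + 1 / (k : ℝ)) := by
    rw [← Real.rpow_add hn0, ← Real.rpow_add hn0, ← Real.rpow_add hn0]
    congr 1
    rw [hη]
    ring
  have h6 := hn₀ n (le_trans (le_max_left _ _) hn)
  simp only [Function.comp] at h6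
  rw [div_lt_iff₀ (by positivity)] at h6
  have h7 : 0 < (n : ℝ) ^ β * (n : ℝ) ^ η * (n : ℝ) ^ (1 + η) := by positivity
  have h8 : C * (D : ℝ) ^ (1 + η) * ((n : ℝ) ^ β * (n : ℝ) ^ η * (n : ℝ) ^ (1 + η)) <
      (n : ℝ) ^ η * (2 * c₀) * ((n : ℝ) ^ β * (n : ℝ) ^ η * (n : ℝ) ^ (1 + η)) :=
    mul_lt_mul_of_pos_right h6 h7
  have h9 : (n : ℝ) ^ η * (2 * c₀) * ((n : ℝ) ^ β * (n : ℝ) ^ η * (n : ℝ) ^ (1 + η)) =
      2 * (c₀ * (n : ℝ) ^ (1 + 1 / (k : ℝ))) := by
    rw [← h5]
    ring
  rw [h9] at h8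
  have h10 : C * (n : ℝ) ^ β * (n : ℝ) ^ η * ((D : ℝ) ^ (1 + η) * (n : ℝ) ^ (1 + η)) =
      C * (D : ℝ) ^ (1 + η) * ((n : ℝ) ^ β * (n : ℝ) ^ η * (n : ℝ) ^ (1 + η)) := by ring
  rw [h10] at h4
  linarith

end Pool.Agent.Results.MP_97687e_co.TensorNetworks
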